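import Pool.Agent.Helper11.PC.Defs

/-! # Linear algebra over a left Ore domain in a division ring (packet ORELIN of the project PC) -/

namespace Pool.Agent.Helper93.PC

open Pool.Agent.Helper11.PC

universe u v

theorem orelin_aux {R : Type u} {E : Type v} [Ring R] [Ring E] (ι : R →+* E)
    (hι : Function.Injective ι) (h1 : (1 : E) ≠ 0)
    (hE : ∀ x : E, x ≠ 0 → ∃ z, x * z = 1 ∧ z * x = 1) (hore : LeftOre R) :
    ∀ (n : ℕ) (I : Type) [Fintype I] [DecidableEq I] (W : I → Fin n → R) (α : I → R) (f : I → E),
      (∀ j, ∑ i, f i * ι (W i j) = 0) → ∑ i, f i * ι (α i) ≠ 0 →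
        ∃ u : I → R, (∀ j, ∑ i, u i * W i j = 0) ∧ ∑ i, u i * α i ≠ 0 := by
  have hR1 : (1 : R) ≠ 0 := by
    intro h
    apply h1
    rw [← map_one ι, h, map_zero]
  intro n
  induction n with
  | zero =>
    intro I _ _ W α f _ hα
    obtain ⟨i, hi⟩ : ∃ i, α i ≠ 0 := by
      by_contra hcon
      push Not at hcon
      apply hα
      apply Finset.sum_eq_zero
      intro i _
      rw [hcon i, map_zero, mul_zero]
    refine ⟨Pi.single i 1, fun j => j.elim0, ?_⟩
    rw [Finset.sum_eq_single i]
    · rw [Pi.single_eq_same, one_mul]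
      exact hi
    · intro b _ hb
      rw [Pi.single_eq_of_ne hb, zero_mul]
    · intro h
      exact absurd (Finset.mem_univ i) h
  | succ n ih =>
    intro I _ _ W α f hW hα
    by_cases hall : ∀ i, W i (Fin.last n) = 0
    · obtain ⟨u, hu1, hu2⟩ := ih I (fun i j => W i j.castSucc) α f (fun j => hW j.castSucc) hα
      refine ⟨u, fun j => ?_, hu2⟩
      refine Fin.lastCases ?_ (fun j => hu1 j) j
      apply Finset.sum_eq_zero
      intro i _
      rw [hall i, mul_zero]
    · push Not at hall
      obtain ⟨k, hk⟩ := hall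
      have hxy : ∀ i, ∃ x y : R, x ≠ 0 ∧ x * W i (Fin.last n) = y * W k (Fin.last n) := by
        intro i
        by_cases hi : W i (Fin.last n) = 0
        · exact ⟨1, 0, hR1, by rw [hi, mul_zero, zero_mul]⟩
        · exact hore _ _ hi hk
      choose x y hx0 hxy using hxy
      have hz : ∀ i, ∃ z : E, ι (x i) * z = 1 ∧ z * ι (x i) = 1 := by
        intro i
        apply hE
        intro h
        apply hx0 i
        apply hι
        rw [h, map_zero]
      choose z hz1 hz2 using hz
      obtain ⟨wk, hwk1, -⟩ := hE (ι (W k (Fin.last n))) (by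
        intro h
        apply hk
        apply hι
        rw [h, map_zero])
      -- `f k`
      have hfk : f k + ∑ i : {i // i ≠ k}, f i * z i * ι (y i) = 0 := by
        have h2 := hW (Fin.last n)
        rw [Fintype.sum_eq_add_sum_subtype_ne _ k] at h2
        have h3 : (f k + ∑ i : {i // i ≠ k}, f i * z i * ι (y i)) * ι (W k (Fin.last n)) = 0 := by
          rw [← h2, add_mul, Finset.sum_mul]
          congr 1
          apply Finset.sum_congr rfl
          intro i _
          rw [mul_assoc, ← map_mul, ← hxy i, map_mul, mul_assoc, ← mul_assoc (z i), hz2, one_mul]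
        have h4 := congrArg (fun t => t * wk) h3
        simp only [mul_assoc, hwk1, mul_one, zero_mul] at h4
        simpa only [mul_assoc] using h4
      have key : ∀ V : I → R, ∑ i : {i // i ≠ k}, (f i * z i) * ι (x i * V i - y i * V k) =
          ∑ i, f i * ι (V i) := by
        intro V
        rw [Fintype.sum_eq_add_sum_subtype_ne (fun i => f i * ι (V i)) k]
        have h2 : f k = -∑ i : {i // i ≠ k}, f i * z i * ι (y i) := eq_neg_of_add_eq_zero_left hfk
        rw [h2, neg_mul, Finset.sum_mul, ← Finset.sum_neg_distrib, ← Finset.sum_add_distrib]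
        apply Finset.sum_congr rfl
        intro i _
        rw [map_sub, map_mul, map_mul, mul_sub, ← mul_assoc (f i * z i), mul_assoc (f i) (z i), hz2, mul_one,
          ← mul_assoc (f i * z i)]
        rw [sub_eq_add_neg, add_comm, mul_assoc (f i) (z i)]
      obtain ⟨u, hu1, hu2⟩ := ih {i // i ≠ k} (fun i j => x i * W i j.castSucc - y i * W k j.castSucc)
        (fun i => x i * α i - y i * α k) (fun i => f i * z i)
        (fun j => by rw [key (fun i => W i j.castSucc)]; exact hW _)
        (by rw [key α]; exact hα)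
      have key2 : ∀ V : I → R, ∑ i, (if h : i = k then -∑ l : {i // i ≠ k}, u l * y l else u ⟨i, h⟩ * x i) * V i =
          ∑ i : {i // i ≠ k}, u i * (x i * V i - y i * V k) := by
        intro V
        rw [Fintype.sum_eq_add_sum_subtype_ne _ k, dif_pos rfl, neg_mul, Finset.sum_mul,
          ← Finset.sum_neg_distrib, ← Finset.sum_add_distrib]
        apply Finset.sum_congr rfl
        intro i _
        rw [dif_neg i.2, mul_sub, ← mul_assoc, ← mul_assoc, sub_eq_add_neg, add_comm]
      refine ⟨fun i => if h : i = k then -∑ l : {i // i ≠ k}, u l * y l else u ⟨i, h⟩ * x i,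
        fun j => ?_, ?_⟩
      · rw [key2 (fun i => W i j)]
        refine Fin.lastCases ?_ (fun j => hu1 j) j
        apply Finset.sum_eq_zero
        intro i _
        rw [hxy i, sub_self, mul_zero]
      · rw [key2 α]
        exact hu2

theorem orelin {R : Type u} {E : Type v} [Ring R] [Ring E] (ι : R →+* E)
    (hι : Function.Injective ι) (h1 : (1 : E) ≠ 0)
    (hE : ∀ x : E, x ≠ 0 → ∃ z, x * z = 1 ∧ z * x = 1) (hore : LeftOre R) {m n : ℕ}
    (W : Fin m → Fin n → R) (α : Fin m → R) (f : Fin m → E)
    (hW : ∀ j, ∑ i, f i * ι (W i j) = 0) (hα : ∑ i, f i * ι (α i) ≠ 0) :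
    ∃ u : Fin m → R, (∀ j, ∑ i, u i * W i j = 0) ∧ ∑ i, u i * α i ≠ 0 :=
  orelin_aux ι hι h1 hE hore n (Fin m) W α f hW hα

end Pool.Agent.Helper93.PC
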